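import Pool.Agent.MTLS.Theta

/-!
# MP_309bba_co: the exact order of growth of `MTL(n)`

The least number of occurrences of abelian squares in a binary word of length `n` has order
exactly `n log n`.
-/

open Pool.Agent.MTL in
theorem Pool.Agent.Results.MP_309bba_co.ExactOrder.result :
    ∃ c C : ℝ, 0 < c ∧ 0 < C ∧ ∀ n : ℕ, 4 ≤ n →
      c * n * Real.log n ≤ MTL n ∧ (MTL n : ℝ) ≤ C * n * Real.log n :=
  Pool.Agent.MTLS.MTL_theta
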